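import Mathlib

set_option autoImplicit false

namespace Pool.Agent.Results.MP_47ab97_lc.Separate

open List

/-- Internal contextual grammar with selection: pairs (selection language, finite list of
contexts) and a finite list of start words. -/
structure IC (V : Type) where
  P : List (Language V × List (List V × List V))
  A : List (List V)

inductive Gen {V : Type} (G : IC V) : List V → Prop
  | ax {w} : w ∈ G.A → Gen G w
  | step {p u v x1 x2 x3} : p ∈ G.P → (u, v) ∈ p.2 → x2 ∈ p.1 → Gen G (x1 ++ x2 ++ x3) →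
      Gen G (x1 ++ u ++ x2 ++ v ++ x3)

def SUF {V : Type} (S : Language V) : Prop := S.IsRegular ∧ ∀ x y, x ++ y ∈ S → y ∈ S

def REG {V : Type} (n : ℕ) (S : Language V) : Prop :=
  ∃ (Z : Type) (_ : Fintype Z) (M : DFA V Z), Fintype.card Z ≤ n ∧ M.accepts = S

def S (k : ℕ) : Language (Fin 5) := {w | (∀ x ∈ w, x = 1) ∧ w.length ≤ k}

def M0 (k : ℕ) : DFA (Fin 5) (Fin (k + 2)) where
  step s x := if h : x = 1 ∧ (s : ℕ) < k then ⟨s + 1, by omega⟩ else Fin.last _
  start := 0
  accept := {s | (s : ℕ) ≤ k}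

lemma ev (k : ℕ) (w : List (Fin 5)) : ∀ s : Fin (k + 2), (((M0 k).evalFrom s w : ℕ) ≤ k ↔
    (∀ x ∈ w, x = 1) ∧ s + w.length ≤ k) := by
  induction w with
  | nil => simp
  | cons a w ih =>
    intro s
    rw [DFA.evalFrom_cons, ih]
    simp only [M0, forall_mem_cons, length_cons]
    split_ifs with h
    · simp only [h.1, true_and]
      exact and_congr_right fun _ => by omega
    · simp only [Fin.val_last]
      exact ⟨fun h => by omega, fun h' => (h ⟨h'.1.1, by omega⟩).elim⟩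

lemma suf (k : ℕ) : SUF (S k) := by
  refine ⟨⟨_, inferInstance, M0 k, ?_⟩, fun x y h => ⟨fun a ha => h.1 a (by simp [ha]), ?_⟩⟩
  · ext w
    change ((M0 k).evalFrom 0 w : ℕ) ≤ k ↔ (∀ x ∈ w, x = 1) ∧ w.length ≤ k
    simpa using ev k w 0
  · have := h.2
    simp at this
    omega

def G (n : ℕ) : IC (Fin 5) :=
  ⟨[(S n, [([0], [2]), ([3], [0]), ([2], [4])])],
    (range (n + 1)).map fun p => replicate (n + p) 1⟩

lemma nest {n : ℕ} {g h : Fin 5} (hg : ([g], [h]) ∈ [([0], [2]), ([3], [0]), ([2], [(4 : Fin 5)])])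
    {x2 : List (Fin 5)} (h2 : x2 ∈ S n) (s : ℕ) : ∀ x1 x3, Gen (G n) (x1 ++ x2 ++ x3) →
      Gen (G n) (x1 ++ replicate s g ++ x2 ++ replicate s h ++ x3) := by
  induction s with
  | zero => simp
  | succ s ih =>
    intro x1 x3 H
    have := Gen.step (G := G n) (p := (S n, _)) (mem_singleton_self _) hg h2
      (x1 := x1 ++ replicate s g) (x3 := replicate s h ++ x3) (by simpa using ih x1 x3 H)
    rw [replicate_succ' (a := g), replicate_succ (a := h)]
    simpa using this

def cnt (x : Fin 5) : ℤ → List (Fin 5) → ℕ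
  | _, [] => 0
  | m, y :: w => if y = 1 then cnt x (m - 1) w else (if y = x ∧ 0 ≤ m then 1 else 0) + cnt x m w

lemma cnt_app (x : Fin 5) (u v : List (Fin 5)) : ∀ m, cnt x m (u ++ v) =
    cnt x m u + cnt x (m - u.count 1) v := by
  induction u with
  | nil => simp [cnt]
  | cons y u ih =>
    intro m
    by_cases h : y = 1
    · simp [cnt, h, ih, sub_sub, add_comm]
    · simp [cnt, h, ih, add_assoc]

lemma cnt_le (x : Fin 5) (u : List (Fin 5)) : ∀ m, cnt x m u ≤ u.count x := by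
  induction u with
  | nil => simp [cnt]
  | cons y u ih =>
    intro m
    have := ih m
    have := ih (m - 1)
    simp only [cnt, count_cons, beq_iff_eq]
    split_ifs <;> first | omega | tauto

lemma cnt_neg (x : Fin 5) (u : List (Fin 5)) : ∀ m < 0, cnt x m u = 0 := by
  induction u with
  | nil => simp [cnt]
  | cons y u ih =>
    intro m h
    simp [cnt, ih m h, ih (m - 1) (by omega), h]

lemma cnt_eq (x : Fin 5) (u : List (Fin 5)) (h : u.count 1 = 0) : cnt x 0 u = u.count x := by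
  induction u with
  | nil => rfl
  | cons y u ih =>
    have : y ≠ 1 := by rintro rfl; simp at h
    simp [cnt, this, ih (by simpa [this] using h), count_cons, add_comm]

lemma inv {n : ℕ} {w : List (Fin 5)} (h : Gen (G n) w) : n ≤ w.count 1 ∧
    w.count 0 + w.count 4 = w.count 2 + w.count 3 ∧
    ∀ m, cnt 0 m w ≤ cnt 3 m w + cnt 2 (m + n) w := by
  induction h with
  | ax h =>
    obtain ⟨p, -, rfl⟩ := mem_map.1 h
    refine ⟨by simp, by simp [count_replicate], fun m => ?_⟩
    have := cnt_le 0 (replicate (n + p) 1) m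
    simp [count_replicate] at this
    omega
  | @step p u v x1 x2 x3 hp huv h2 _ ih =>
    obtain rfl := mem_singleton.1 hp
    obtain ⟨i1, i2, i3⟩ := ih
    have := (count_le_length (a := 1) (l := x2)).trans h2.2
    simp only [count_append, cnt_app] at *
    simp only [mem_cons, Prod.mk.injEq, not_mem_nil, or_false] at huv
    rcases huv with ⟨rfl, rfl⟩ | ⟨rfl, rfl⟩ | ⟨rfl, rfl⟩
    all_goals
      refine ⟨by omega, by simp; omega, fun m => ?_⟩
      have := i3 m
      simp [cnt] at this ⊢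
      split_ifs <;> omega

lemma last {V : Type} {G : IC V} {y : List V} (h : Gen G y) : y ∈ G.A ∨
    ∃ p u v x1 x2 x3, p ∈ G.P ∧ (u, v) ∈ p.2 ∧ x2 ∈ p.1 ∧ Gen G (x1 ++ x2 ++ x3) ∧
      y = x1 ++ u ++ x2 ++ v ++ x3 ∧ u ++ v ≠ [] := by
  induction h with
  | ax h => exact .inl h
  | @step p u v x1 x2 x3 a b c d ih =>
    by_cases e : u ++ v = []
    · obtain ⟨rfl, rfl⟩ := append_eq_nil_iff.1 e
      simpa using ih
    · exact .inr ⟨p, u, v, x1, x2, x3, a, b, c, d, rfl, e⟩

lemma len5 (w : List (Fin 5)) :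
    w.length = w.count 0 + w.count 1 + w.count 2 + w.count 3 + w.count 4 := by
  induction w with
  | nil => rfl
  | cons x w ih => fin_cases x <;> simp [ih] <;> omega

lemma srt (a b c : ℕ) :
    (replicate a 0 ++ replicate b 1 ++ replicate c 2 : List (Fin 5)).Pairwise (· ≤ ·) := by
  simp only [pairwise_append, pairwise_replicate, mem_append, mem_replicate]
  refine ⟨⟨by simp, by simp, ?_⟩, by simp, ?_⟩
  · rintro _ ⟨-, rfl⟩ _ ⟨-, rfl⟩; decide
  · rintro _ (⟨-, rfl⟩ | ⟨-, rfl⟩) _ ⟨-, rfl⟩ <;> decide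

lemma pump {Z : Type} [Fintype Z] (M : DFA (Fin 5) Z) {n : ℕ} (h : Fintype.card Z ≤ n) (q : Z) :
    ∃ p, 0 < p ∧ p ≤ n ∧
      M.evalFrom q (replicate (n + p) 1) = M.evalFrom q (replicate n 1) := by
  have key : ∀ i j : ℕ, i < j → j ≤ n →
      M.evalFrom q (replicate i 1) = M.evalFrom q (replicate j 1) → ∃ p, 0 < p ∧ p ≤ n ∧
        M.evalFrom q (replicate (n + p) 1) = M.evalFrom q (replicate n 1) := by
    intro i j a b e
    refine ⟨j - i, by omega, by omega, ?_⟩
    rw [show n + (j - i) = j + (n - i) by omega, replicate_add, DFA.evalFrom_of_append, ← e,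
      ← DFA.evalFrom_of_append, ← replicate_add, show i + (n - i) = n by omega]
  obtain ⟨i, j, ne, e⟩ := Fintype.exists_ne_map_eq_of_card_lt
    (fun i : Fin (n + 1) => M.evalFrom q (replicate i 1)) (by simp; omega)
  rcases lt_or_gt_of_ne ne with c | c
  · exact key i j c (by omega) e
  · exact key j i c (by omega) e.symm

lemma core {n : ℕ} (hn : 0 < n) {Z : Type} [Fintype Z] (M : DFA (Fin 5) Z)
    (hZ : Fintype.card Z ≤ n) {j : ℕ} {u v x1 x2 x3 : List (Fin 5)}
    (e : replicate j 0 ++ replicate n 1 ++ replicate j 2 = x1 ++ u ++ x2 ++ v ++ x3)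
    (hx : Gen (G n) (x1 ++ x2 ++ x3)) (ne : u ++ v ≠ []) (h2 : x2 ∈ M.accepts)
    (H : ∀ z1 z2 z3, z2 ∈ M.accepts → Gen (G n) (z1 ++ z2 ++ z3) →
      Gen (G n) (z1 ++ u ++ z2 ++ v ++ z3)) : False := by
  have so := srt j n j
  have c0 := congrArg (count 0) e
  have c1 := congrArg (count 1) e
  have c2 := congrArg (count 2) e
  have c3 := congrArg (count 3) e
  have c4 := congrArg (count 4) e
  obtain ⟨i1, i2, -⟩ := inv hx
  have l := length_pos_iff.2 ne
  rw [len5] at l
  rw [e] at so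
  simp only [count_append, count_replicate, beq_iff_eq, Fin.reduceEq, reduceIte]
    at c0 c1 c2 c3 c4 i1 i2 l
  simp only [pairwise_append, mem_append] at so
  obtain ⟨⟨⟨⟨-, -, s1⟩, s2, s3⟩, -, s4⟩, -, s5⟩ := so
  have m0 : 0 ∈ u ∨ 0 ∈ v := by rw [← count_pos_iff, ← count_pos_iff]; omega
  have m2 : 2 ∈ u ∨ 2 ∈ v := by rw [← count_pos_iff, ← count_pos_iff]; omega
  have a1 : x1.count 1 = 0 := count_eq_zero.2 fun h => by
    rcases m0 with m | m
    · exact absurd (s1 _ h _ m) (by decide)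
    · exact absurd (s4 _ (.inl (.inl h)) _ m) (by decide)
  have a3 : x3.count 1 = 0 := count_eq_zero.2 fun h => by
    rcases m2 with m | m
    · exact absurd (s5 _ (.inl (.inl (.inr m))) _ h) (by decide)
    · exact absurd (s5 _ (.inr m) _ h) (by decide)
  have m1 : 1 ∈ x2 := by rw [← count_pos_iff]; omega
  have u2 : u.count 2 = 0 := count_eq_zero.2 fun h => absurd (s3 _ (.inr h) _ m1) (by decide)
  have v0 : v.count 0 = 0 := count_eq_zero.2 fun h => absurd (s4 _ (.inr m1) _ h) (by decide)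
  obtain ⟨s, hs⟩ : ∃ s, s = x2.count 0 := ⟨_, rfl⟩
  obtain ⟨t, ht⟩ : ∃ t, t = x2.count 2 := ⟨_, rfl⟩
  have sh : x2 = replicate s 0 ++ replicate n 1 ++ replicate t 2 :=
    Perm.eq_of_pairwise' s2 (srt _ _ _) (perm_iff_count.2 fun x => by
      fin_cases x <;> simp [count_replicate] <;> omega)
  obtain ⟨p, p1, p2, p3⟩ := pump M hZ (M.evalFrom M.start (replicate s 0))
  have z : Gen (G n) (replicate (n + p) 1) := .ax (mem_map.2 ⟨p, by simp; omega, rfl⟩)
  have nil : [] ∈ S n := ⟨by simp, by simp⟩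
  have z := nest (g := 2) (h := 4) (by simp) nil t (replicate (n + p) 1) [] (by simpa using z)
  have z := nest (g := 3) (h := 0) (by simp) nil s [] _ (by simpa using z)
  have := (inv (H (replicate s 3) (replicate s 0 ++ replicate (n + p) 1 ++ replicate t 2)
    (replicate t 4) ?_ (by simpa using z))).2.2 0
  · have u1 : u.count 1 = 0 := by omega
    have b1 := cnt_eq 0 u u1
    have b2 := cnt_eq 0 (replicate s 0) (by simp [count_replicate])
    have b3 := cnt_le 3 (replicate s 3) 0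
    have b4 := cnt_le 2 (replicate s 3) n
    have b5 := cnt_le 2 u n
    have b6 := cnt_le 2 (replicate s 0) n
    have b7 := cnt_le 2 (replicate (n + p) 1) n
    have b8 := cnt_le 3 u 0
    have b9 := cnt_le 3 (replicate s 0) 0
    have b10 := cnt_le 3 (replicate (n + p) 1) 0
    have n1 : ∀ x w, cnt x (-(p : ℤ)) w = 0 := fun x w => cnt_neg x w _ (by omega)
    have n2 : ∀ x w, cnt x (-(p : ℤ) + -n) w = 0 := fun x w => cnt_neg x w _ (by omega)
    simp [cnt_app, count_replicate, u1, n1, n2] at this b2 b3 b4 b6 b7 b9 b10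
    omega
  · rw [sh] at h2
    simp only [DFA.mem_accepts, DFA.eval, DFA.evalFrom_of_append] at h2 ⊢
    rwa [p3]

theorem result (n : ℕ) : ∃ G : IC (Fin 5), (∀ p ∈ G.P, SUF p.1) ∧
    ∀ (W : Type) (i : Fin 5 ↪ W) (G' : IC W), (∀ p ∈ G'.P, REG n p.1) →
      {w | Gen G' w} ≠ List.map i '' {w | Gen G w} := by
  refine ⟨G (n + 1), fun p hp => mem_singleton.1 hp ▸ suf _, fun W i G' hG hL => ?_⟩
  have hL : ∀ w, Gen G' w ↔ ∃ w0, Gen (G (n + 1)) w0 ∧ w0.map i = w := Set.ext_iff.1 hL
  have h0 : ∀ w, Gen G' (w.map i) ↔ Gen (G (n + 1)) w := fun w => by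
    rw [hL]
    exact ⟨fun ⟨_, a, b⟩ => (map_injective_iff.2 i.injective b) ▸ a, fun a => ⟨_, a, rfl⟩⟩
  obtain ⟨j, hj⟩ : ∃ j, ∀ w ∈ G'.A, w.length ≤ j :=
    ⟨(G'.A.map length).sum, fun w hw => single_le_sum (by simp) _ (mem_map_of_mem hw)⟩
  have y := nest (n := n + 1) (g := 0) (h := 2) (by simp) (x2 := replicate (n + 1) 1)
    ⟨fun x hx => eq_of_mem_replicate hx, by simp⟩ j [] []
    (.ax (mem_map.2 ⟨0, by simp, by simp⟩))
  simp only [nil_append, append_nil] at y
  rcases last ((h0 _).2 y) with h | ⟨p, u, v, x1, x2, x3, a, b, c, d, e, f⟩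
  · have := hj _ h
    simp only [length_map, length_append, length_replicate] at this
    omega
  obtain ⟨_, x3, e1, e2, rfl⟩ := map_eq_append_iff.1 e
  obtain ⟨_, v, rfl, e3, rfl⟩ := map_eq_append_iff.1 e2
  obtain ⟨_, x2, rfl, e4, rfl⟩ := map_eq_append_iff.1 e3
  obtain ⟨x1, u, rfl, rfl, rfl⟩ := map_eq_append_iff.1 e4
  obtain ⟨Z, _, M, hZ, hM⟩ := hG p a
  refine core (by omega) (M.comap i) (by omega) e1 ((h0 _).1 (by simpa using d))
    (by simpa using f) (by rw [DFA.accepts_comap, hM]; exact c) fun z1 z2 z3 h g => ?_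
  rw [DFA.accepts_comap, hM] at h
  refine (h0 _).1 ?_
  simp only [map_append]
  exact .step a b h (by simpa using (h0 _).2 g)

end Pool.Agent.Results.MP_47ab97_lc.Separate
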